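import Pool.Agent.Helper92.HRU.BDefs

/-! Piece PA1: the norm a(f). -/

set_option autoImplicit false

namespace Pool.Agent.Helper92.HRU

open Complex Set MeasureTheory Filter Topology
open scoped ComplexConjugate Real ENNReal
open Pool.Agent.Helper84.HRT (Weyl node chi mu8 XL Data Aop Bop Good)

theorem aF_nonneg (f : L2) (n : ℤ) : 0 ≤ aF f n := by sorry

theorem integrable_cell (f : L2) (n : ℤ) :
    IntegrableOn (fun x => ‖f x‖) (Ico (π * n) (π * (n + 1))) := by sorry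

theorem aF_sq_le (f : L2) (n : ℤ) :
    aF f n ^ 2 ≤ π * ∫ x in Ico (π * n) (π * (n + 1)), ‖f x‖ ^ 2 := by sorry

theorem summable_aF (f : L2) : Summable fun n : ℤ => aF f n ^ 2 := by sorry

theorem aN_nonneg (f : L2) : 0 ≤ aN f := by sorry

theorem aN_sq (f : L2) : aN f ^ 2 = ∑' n : ℤ, aF f n ^ 2 := by sorry

/-- (B1.1) -/
theorem aN_le (f : L2) : aN f ≤ 2 * ‖f‖ := by sorry

theorem aN_zero : aN 0 = 0 := by sorry

theorem aN_neg (f : L2) : aN (-f) = aN f := by sorry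

theorem aN_add (f g : L2) : aN (f + g) ≤ aN f + aN g := by sorry

theorem aN_sub (f g : L2) : aN (f - g) ≤ aN f + aN g := by sorry

theorem aN_smul (c : ℂ) (f : L2) : aN (c • f) = ‖c‖ * aN f := by sorry

theorem aN_mul {φ : ℝ → ℂ} (h : BddM φ) {C : ℝ} (hC : ∀ x, ‖φ x‖ ≤ C) (f : L2) :
    aN (mulOp φ f) ≤ C * aN f := by sorry

end Pool.Agent.Helper92.HRU
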