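import Pool.Agent.Helper92.HRU.BDefs

/-! Piece PA2: a(f), translations, kernel operators. -/

set_option autoImplicit false

namespace Pool.Agent.Helper92.HRU

open Complex Set MeasureTheory Filter Topology
open scoped ComplexConjugate Real ENNReal
open Pool.Agent.Helper84.HRT (Weyl node chi mu8 XL Data Aop Bop Good)

theorem aN_tr (c : ℝ) (hc : |c| ≤ π) (f : L2) : aN (trOp c f) ≤ 2 * aN f := by sorry

/-- (B1.2) -/
theorem aN_W (α : ℂ) (hα : ‖α‖ = 1) (f : L2) : aN (W α f) ≤ 2 * aN f := by sorry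

theorem Wb_bounds : ∃ C : ℝ, 0 < C ∧ ∀ (P : Par) (gb : ℂ), ‖gb‖ = 1 → ∀ f : L2,
    aN (Wb P gb f) ≤ C * aN f ∧ ‖Wb P gb f‖ ≤ C * ‖f‖ := by sorry

/-- the kernel operators are bounded from `a` to `L∞` on cells -/
theorem kerf_bound (k : ℝ → ℂ) (hk : Measurable k) (M : ℝ) (hM : 0 ≤ M)
    (hb : ∀ u, ‖k u‖ ≤ M / (4 * π)) (f : L2) (n : ℤ) (x : ℝ)
    (hx : x ∈ Ico (π * n) (π * (n + 1))) :
    ‖kerf k f x‖ ≤ M / (2 * π) * (aF f (n - 1) + aF f n + aF f (n + 1)) := by sorry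

/-- (B1.4) abstract form: operators dominated by three neighbouring cells -/
theorem three_cells (T : L2 →L[ℂ] L2) (M : ℝ) (hM : 0 ≤ M)
    (hT : ∀ (f : L2) (n : ℤ), ∀ᵐ x : ℝ, x ∈ Ico (π * n) (π * (n + 1)) →
      ‖(T f : ℝ → ℂ) x‖ ≤ M / (2 * π) * (aF f (n - 1) + aF f n + aF f (n + 1))) :
    (∀ f' f : L2, ‖(inner ℂ f' (T f) : ℂ)‖ ≤ M * (aN f' * aN f)) ∧
    (∀ f : L2, ‖T f‖ ≤ M * aN f) ∧ (∀ f : L2, aN (T f) ≤ 2 * M * aN f) := by sorry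

end Pool.Agent.Helper92.HRU
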