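import Pool.Agent.Helper92.HRU.BDefs

/-! Piece PA3: bounds of X, X0, X1. -/

set_option autoImplicit false

namespace Pool.Agent.Helper92.HRU

open Complex Set MeasureTheory Filter Topology
open scoped ComplexConjugate Real ENNReal
open Pool.Agent.Helper84.HRT (Weyl node chi mu8 XL Data Aop Bop Good)

/-- (B1.4) -/
theorem X_bounds (P : Par) (r : ℝ) (hr : 0 ≤ r) (ξ : ℝ → ℂ) (h : AdmX P r ξ) (f' f : L2) :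
    ‖(inner ℂ f' (X ξ f) : ℂ)‖ ≤ r * (aN f' * aN f) ∧ ‖X ξ f‖ ≤ r * aN f ∧
      aN (X ξ f) ≤ 2 * r * aN f := by sorry

theorem X0_bounds (P : Par) (r : ℝ) (hr : 0 ≤ r) (ξ : ℝ → ℂ) (h : AdmX P r ξ) (f' f : L2) :
    ‖(inner ℂ f' (X0 ξ f) : ℂ)‖ ≤ r * (aN f' * aN f) ∧ ‖X0 ξ f‖ ≤ r * aN f ∧
      aN (X0 ξ f) ≤ 2 * r * aN f := by sorry

theorem X1_bounds (P : Par) (r : ℝ) (hr : 0 ≤ r) (ξ : ℝ → ℂ) (h : AdmX P r ξ) (f' f : L2) :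
    ‖(inner ℂ f' (X1 ξ f) : ℂ)‖ ≤ P.e2 * r * (aN f' * aN f) ∧ ‖X1 ξ f‖ ≤ P.e2 * r * aN f ∧
      aN (X1 ξ f) ≤ 2 * (P.e2 * r) * aN f := by sorry

end Pool.Agent.Helper92.HRU
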