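import Pool.Agent.Helper92.HRU.BDefs

/-! Piece PB3: reduction to the lines (Lemma B3). -/

set_option autoImplicit false

namespace Pool.Agent.Helper92.HRU

open Complex Set MeasureTheory Filter Topology
open scoped ComplexConjugate Real ENNReal
open Pool.Agent.Helper84.HRT (Weyl node chi mu8 XL Data Aop Bop Good)

/-- LEMMA B3 -/
theorem lemB3 : ∃ C : ℝ, 0 < C ∧ ∀ (P : Par) (gb : ℂ) (r : ℝ) (ξ : ℝ → ℂ), ‖gb‖ = 1 → 0 ≤ r →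
    r ≤ 1 / 100 → AdmX P r ξ → ∀ u : L2,
    ‖Qc P u‖ ≤ C * (‖Qc P (AA P gb ξ u)‖ + r * aN (Q P u) + P.s * ‖Q P u‖) ∧
    (∀ f' : L2, Q P f' = f' →
      ‖(inner ℂ f' (AA P gb ξ u) : ℂ) - (inner ℂ f' (Cos2 (Q P u))
        - (P.s ^ 2 : ℝ) * inner ℂ f' (Wb P gb (G P (Wb P gb (Q P u)))) - TT P ξ f' (Q P u))‖
      ≤ C * ((P.s * r + r * P.e2 + r ^ 3) * (aN f' * aN (Q P u)) + P.s ^ 3 * (‖f'‖ * ‖Q P u‖)
        + ‖Qc P (AA P gb ξ u)‖ * ‖f'‖)) ∧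
    ‖(inner ℂ u (X ξ u) : ℂ) + 2 * TT P ξ (Q P u) (Q P u)‖
      ≤ C * ((P.s * r + r * P.e2 + r ^ 3) * aN (Q P u) ^ 2
        + ‖Qc P (AA P gb ξ u)‖ * (‖Q P u‖ + ‖Qc P (AA P gb ξ u)‖)) := by sorry

end Pool.Agent.Helper92.HRU
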