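import Pool.Agent.Helper92.HRU.BDefs

/-! Piece PD: the operator D. -/

set_option autoImplicit false

namespace Pool.Agent.Helper92.HRU

open Complex Set MeasureTheory Filter Topology
open scoped ComplexConjugate Real ENNReal
open Pool.Agent.Helper84.HRT (Weyl node chi mu8 XL Data Aop Bop Good)

/-- (B1.5) existence: `D = G (1 + s W G)⁻¹ = Σ (-s)^j G (W G)^j` (Neumann series, `11 s ‖W‖ ≤ 1/2`). -/
theorem exists_D (P : Par) (gb : ℂ) (hg : ‖gb‖ = 1) : ∃ D : L2 →L[ℂ] L2, IsD P gb D := by sorry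

/-- `D = G - s G W D` and `D = G - s D W G` -/
theorem IsD.eq1 {P : Par} {gb : ℂ} {D : L2 →L[ℂ] L2} (h : IsD P gb D) (f : L2) :
    D f = G P f - (P.s : ℂ) • G P (Wb P gb (D f)) := by sorry

theorem IsD.eq2 {P : Par} {gb : ℂ} {D : L2 →L[ℂ] L2} (h : IsD P gb D) (f : L2) :
    D f = G P f - (P.s : ℂ) • D (Wb P gb (G P f)) := by sorry

theorem IsD.sub_le : ∃ C : ℝ, 0 < C ∧ ∀ (P : Par) (gb : ℂ) (D : L2 →L[ℂ] L2), ‖gb‖ = 1 →
    IsD P gb D → ∀ f : L2, ‖D f - G P f‖ ≤ C * P.s * ‖f‖ := by sorry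

end Pool.Agent.Helper92.HRU
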