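import Pool.Agent.Helper92.HRU.BDefs

/-! Piece PE1: pointwise estimates of the bands. -/

set_option autoImplicit false

namespace Pool.Agent.Helper92.HRU

open Complex Set MeasureTheory Filter Topology
open scoped ComplexConjugate Real ENNReal
open Pool.Agent.Helper84.HRT (Weyl node chi mu8 XL Data Aop Bop Good)

theorem ee_ge (P : Par) (y : ℝ) : P.g ≤ ee P y := by sorry

theorem ee_le_eb (P : Par) (y : ℝ) : ee P y ≤ eb P y := by sorry

theorem eb_le (P : Par) (y : ℝ) : eb P y ≤ 3 := by sorry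

theorem ee_cont (P : Par) : Continuous (ee P) := by sorry

theorem eb_cont (P : Par) : Continuous (eb P) := by sorry

theorem ee_even (P : Par) (y : ℝ) : ee P (-y) = ee P y := by sorry

theorem ee_lower : ∃ c : ℝ, 0 < c ∧ ∀ (P : Par) (y : ℝ), |y| ≤ 1 / 20 →
    (|y| ≤ P.s ^ 2 → c * (y ^ 2 / P.s ^ 2 + P.g) ≤ ee P y) ∧
    (P.s ^ 2 ≤ |y| → c * |y| ≤ ee P y) := by sorry

theorem ee_upper : ∃ C : ℝ, 0 < C ∧ ∀ (P : Par) (y : ℝ), |y| ≤ 1 / 20 →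
    ee P y ≤ C * (y ^ 2 / P.s ^ 2 + P.g) := by sorry

theorem eb_lower : ∃ c : ℝ, 0 < c ∧ ∀ (P : Par) (y : ℝ), |y| ≤ 1 / 20 →
    c * (|y| + P.s ^ 2) ≤ eb P y := by sorry

/-- `s² (|y| + |δ|)` is small against `e` -/
theorem wY_small : ∃ C : ℝ, 0 < C ∧ ∀ (P : Par) (y : ℝ), |y| ≤ 1 / 20 →
    P.s ^ 2 * (|y| + |P.del|) ≤ C * (P.L ^ 16)⁻¹ * ee P y := by sorry

end Pool.Agent.Helper92.HRU
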