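import Pool.Agent.Helper92.HRU.BDefs

/-! Piece PE2: integrals of 1/e. -/

set_option autoImplicit false

namespace Pool.Agent.Helper92.HRU

open Complex Set MeasureTheory Filter Topology
open scoped ComplexConjugate Real ENNReal
open Pool.Agent.Helper84.HRT (Weyl node chi mu8 XL Data Aop Bop Good)

/-- (B4.2) -/
theorem Lam_bounds : ∃ c C : ℝ, 0 < c ∧ 0 < C ∧ ∀ P : Par,
    c * P.L ^ 2 ≤ Lam P ∧ Lam P ≤ C * P.L ^ 2 := by sorry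

theorem Lam_lint (P : Par) : ∫⁻ y in Iy, ENNReal.ofReal (ee P y)⁻¹ = ENNReal.ofReal (Lam P) := by
  sorry

theorem Lam_tail : ∃ C : ℝ, 0 < C ∧ ∀ P : Par,
    ∫⁻ y in Iy \ Icc (-(P.s ^ 2 / P.L)) (P.s ^ 2 / P.L), ENNReal.ofReal (ee P y)⁻¹
      ≤ ENNReal.ofReal (C * P.L) := by sorry

theorem y2_int : ∃ C : ℝ, 0 < C ∧ ∀ P : Par,
    ∫⁻ y in Iy, ENNReal.ofReal (y ^ 2 * (ee P y)⁻¹) ≤ ENNReal.ofReal C := by sorry

theorem Lam_minus : ∃ C : ℝ, 0 < C ∧ ∀ P : Par,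
    ∫⁻ y in Iy, ENNReal.ofReal (eb P y)⁻¹ ≤ ENNReal.ofReal (C * P.L) := by sorry

theorem e2_int : ∃ c : ℝ, 0 < c ∧ ∀ P : Par,
    ENNReal.ofReal (c * Lam P / P.g) ≤ ∫⁻ y in Iy, ENNReal.ofReal ((ee P y ^ 2)⁻¹) := by sorry

end Pool.Agent.Helper92.HRU
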