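import Pool.Agent.Helper92.HRU.BDefs

/-! Piece PE3: Cauchy-Schwarz on the lines. -/

set_option autoImplicit false

namespace Pool.Agent.Helper92.HRU

open Complex Set MeasureTheory Filter Topology
open scoped ComplexConjugate Real ENNReal
open Pool.Agent.Helper84.HRT (Weyl node chi mu8 XL Data Aop Bop Good)

/-- Cauchy-Schwarz on the lines: `a(f)² ≤ (∫ φ⁻²) ‖φ(y) f‖²` -/
theorem aN_weight (P : Par) (φ : ℝ → ℝ) (hφ : Continuous φ) (hp : ∀ y, 0 < φ y) (M : ℝ)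
    (hM : 0 ≤ M) (hI : ∫⁻ y in Iy, ENNReal.ofReal (φ y ^ 2)⁻¹ ≤ ENNReal.ofReal M)
    (f : L2) (hf : Q P f = f) : aN f ^ 2 ≤ M * ‖yMul P φ f‖ ^ 2 := by sorry

end Pool.Agent.Helper92.HRU
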