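import Pool.Agent.Helper92.HRU.BDefs

/-! Piece PE4: the energy. -/

set_option autoImplicit false

namespace Pool.Agent.Helper92.HRU

open Complex Set MeasureTheory Filter Topology
open scoped ComplexConjugate Real ENNReal
open Pool.Agent.Helper84.HRT (Weyl node chi mu8 XL Data Aop Bop Good)

/-- the energy -/
theorem En_nonneg (P : Par) (gb : ℂ) (f : L2) : 0 ≤ En P gb f := by sorry

theorem En_Q (P : Par) (gb : ℂ) (hg : ‖gb‖ = 1) (f : L2) : En P gb (Q P f) = En P gb f := by sorry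

theorem En_split (P : Par) (gb : ℂ) (hg : ‖gb‖ = 1) (f : L2) :
    En P gb f = En P gb (Qp P gb f) + En P gb (Qm P gb f) := by sorry

theorem En_Qp (P : Par) (gb : ℂ) (hg : ‖gb‖ = 1) (f : L2) :
    En P gb (Qp P gb f) = ‖yMul P (fun y => √(ee P y)) (Qp P gb f)‖ ^ 2 := by sorry

theorem En_Qm (P : Par) (gb : ℂ) (hg : ‖gb‖ = 1) (f : L2) :
    En P gb (Qm P gb f) = ‖yMul P (fun y => √(eb P y)) (Qm P gb f)‖ ^ 2 := by sorry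

theorem En_ge (P : Par) (gb : ℂ) (hg : ‖gb‖ = 1) (f : L2) : P.g * ‖Q P f‖ ^ 2 ≤ En P gb f := by sorry

theorem En_le (P : Par) (gb : ℂ) (hg : ‖gb‖ = 1) (f : L2) : En P gb f ≤ 3 * ‖Q P f‖ ^ 2 := by sorry

theorem HD_Qp (P : Par) (gb : ℂ) (hg : ‖gb‖ = 1) (f : L2) :
    (inner ℂ (Qp P gb f) (HD P gb f) : ℂ) = (En P gb (Qp P gb f) : ℂ) := by sorry

theorem HD_Qm (P : Par) (gb : ℂ) (hg : ‖gb‖ = 1) (f : L2) :
    (inner ℂ (Qm P gb f) (HD P gb f) : ℂ) = -(En P gb (Qm P gb f) : ℂ) := by sorry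

/-- (B4.3) -/
theorem aN_Qp (P : Par) (gb : ℂ) (hg : ‖gb‖ = 1) (f : L2) :
    aN (Qp P gb f) ^ 2 ≤ Lam P * En P gb (Qp P gb f) := by sorry

theorem aN_Qm : ∃ C : ℝ, 0 < C ∧ ∀ (P : Par) (gb : ℂ), ‖gb‖ = 1 → ∀ f : L2,
    aN (Qm P gb f) ^ 2 ≤ C * P.L * En P gb (Qm P gb f) := by sorry

theorem aN_QE : ∃ C : ℝ, 0 < C ∧ ∀ (P : Par) (gb : ℂ), ‖gb‖ = 1 → ∀ f : L2,
    aN (Q P f) ^ 2 ≤ C * P.L ^ 2 * En P gb f := by sorry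

theorem wY_E : ∃ C : ℝ, 0 < C ∧ ∀ (P : Par) (gb : ℂ), ‖gb‖ = 1 → ∀ f : L2, Q P f = f →
    P.s ^ 2 * ‖wY P f‖ ^ 2 ≤ C * (P.L ^ 16)⁻¹ * En P gb f := by sorry

end Pool.Agent.Helper92.HRU
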