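import Pool.Agent.Helper92.HRU.BDefs

/-! Piece PF1: the key inequalities. -/

set_option autoImplicit false

namespace Pool.Agent.Helper92.HRU

open Complex Set MeasureTheory Filter Topology
open scoped ComplexConjugate Real ENNReal
open Pool.Agent.Helper84.HRT (Weyl node chi mu8 XL Data Aop Bop Good)

theorem TT_bound (P : Par) (r : ℝ) (hr : 0 ≤ r) (ξ : ℝ → ℂ) (h : AdmX P r ξ) (f' f : L2) :
    ‖TT P ξ f' f‖ ≤ 11 * r ^ 2 * (aN f' * aN f) := by sorry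

theorem TT_symm (P : Par) (r : ℝ) (hr : 0 ≤ r) (ξ : ℝ → ℂ) (h : AdmX P r ξ) (f' f : L2) :
    TT P ξ f' f = conj (TT P ξ f f') := by sorry

/-- (B4.4) the key inequalities: `ρ = A u`, `f = Q u` -/
theorem keyIneq (K : ℝ) (hK : 0 < K) : ∃ C : ℝ, 0 < C ∧ ∀ (P : Par) (gb : ℂ) (r : ℝ) (ξ : ℝ → ℂ),
    ‖gb‖ = 1 → 0 ≤ r → r ≤ 1 / 100 → r ≤ K / P.L → AdmX P r ξ → ∀ u : L2,
    ‖Qc P u‖ ≤ C * (‖Qc P (AA P gb ξ u)‖ + √(En P gb u) + ‖Q P u‖) ∧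
    (∀ f' : L2, Q P f' = f' →
      ‖(inner ℂ f' (AA P gb ξ u) : ℂ) - (inner ℂ f' (HD P gb (Q P u)) - TT P ξ f' (Q P u))‖
      ≤ C * (P.L⁻¹ * (√(En P gb f') * √(En P gb u)) + ‖Qc P (AA P gb ξ u)‖ * ‖f'‖)) ∧
    ‖(inner ℂ u (X ξ u) : ℂ) + 2 * TT P ξ (Q P u) (Q P u)‖
      ≤ C * (P.L⁻¹ * En P gb u
        + ‖Qc P (AA P gb ξ u)‖ * (‖Q P u‖ + ‖Qc P (AA P gb ξ u)‖)) ∧
    (∀ f' : L2, ‖TT P ξ (Qm P gb f') (Q P u)‖ ≤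
      C * (√P.L)⁻¹ * (√(En P gb (Qm P gb f')) * √(En P gb u))) ∧
    (∀ f' : L2, ‖TT P ξ (Qp P gb f') (Qm P gb u)‖ ≤
      C * (√P.L)⁻¹ * (√(En P gb (Qp P gb f')) * √(En P gb (Qm P gb u)))) := by sorry

end Pool.Agent.Helper92.HRU
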