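import Pool.Agent.Helper92.HRU.BDefs

/-! Piece PF2: (T+) and (E0), normalised. -/

set_option autoImplicit false

namespace Pool.Agent.Helper92.HRU

open Complex Set MeasureTheory Filter Topology
open scoped ComplexConjugate Real ENNReal
open Pool.Agent.Helper84.HRT (Weyl node chi mu8 XL Data Aop Bop Good)

/-- consequences for `u` with given residual: the negative band is small, energy balance -/
theorem balance (K : ℝ) (hK : 0 < K) : ∃ C : ℝ, 0 < C ∧ ∀ (P : Par) (gb : ℂ) (r : ℝ) (ξ : ℝ → ℂ),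
    ‖gb‖ = 1 → 0 ≤ r → r ≤ 1 / 100 → r ≤ K / P.L → AdmX P r ξ → ∀ u : L2,
    En P gb (Qm P gb u) ≤ C * (P.L⁻¹ * En P gb u + ‖AA P gb ξ u‖ * ‖Q P u‖) ∧
    |En P gb (Qp P gb u) - (TT P ξ (Qp P gb u) (Qp P gb u)).re|
      ≤ C * ((√P.L)⁻¹ * En P gb u + ‖AA P gb ξ u‖ * ‖Q P u‖) := by sorry

/-- (T+), normalised -/
theorem Tplus0 (K : ℝ) (hK : 0 < K) : ∃ c C L0 : ℝ, 0 < c ∧ 0 < C ∧ ∀ (P : Par) (gb : ℂ) (r : ℝ)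
    (ξ : ℝ → ℂ), L0 ≤ P.L → ‖gb‖ = 1 → 0 ≤ r → r ≤ 1 → r ≤ K / P.L → AdmX P r ξ → ∀ u : L2,
    (inner ℂ u (X ξ u) : ℂ).re ≤ -(c * P.g) * ‖u‖ ^ 2 + C / P.g * ‖AA P gb ξ u‖ ^ 2 := by sorry

/-- (E0), normalised -/
theorem E00 : ∃ c L0 : ℝ, 0 < c ∧ ∀ (P : Par) (gb : ℂ), L0 ≤ P.L → ‖gb‖ = 1 → ∀ u : L2,
    c * P.g * ‖u‖ ≤ ‖B0 P gb u‖ := by sorry

end Pool.Agent.Helper92.HRU
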