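import Pool.Agent.Helper92.HRU.BDefs

/-! Piece PG: interface of B6-B8 (helper34). -/

set_option autoImplicit false

namespace Pool.Agent.Helper92.HRU

open Complex Set MeasureTheory Filter Topology
open scoped ComplexConjugate Real ENNReal
open Pool.Agent.Helper84.HRT (Weyl node chi mu8 XL Data Aop Bop Good)

/-- (B7) upper bound of `T` on the positive band -/
theorem T_upper : ∃ h : ℝ, 0 < h ∧ h ≤ 1 / 2 ∧ ∀ K : ℝ, 0 < K → ∃ C : ℝ, 0 < C ∧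
    ∀ (P : Par) (gb : ℂ) (r : ℝ) (ξ : ℝ → ℂ), ‖gb‖ = 1 → 0 ≤ r → r ≤ 1 → r ≤ K / P.L →
    AdmX P r ξ → ∀ f : L2, Qp P gb f = f →
    ENNReal.ofReal (TT P ξ f f).re ≤
      ENNReal.ofReal (r ^ 2 * Wc + C * (P.L ^ 3)⁻¹) *
        (∫⁻ y in Iy, ∫⁻ y' in Iy, Fac h (al P gb f) y y')
      + ENNReal.ofReal (C * (√P.L)⁻¹ * En P gb f) := by sorry

/-- norm and energy on the positive band in terms of `al` -/
theorem al_isometry (P : Par) (gb : ℂ) (hg : ‖gb‖ = 1) (f h : L2) (hf : Qp P gb f = f)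
    (hh : Qp P gb h = h) :
    (∀ k, AEMeasurable (al P gb f k)) ∧
    ∫⁻ y in Iy, Nf (al P gb f) y ^ 2 = ENNReal.ofReal (‖f‖ ^ 2) ∧
    Ef (ee P) (al P gb f) = ENNReal.ofReal (En P gb f) ∧
    (inner ℂ f h : ℂ) = ∑' k : ℤ, ∫ y in Iy, conj (al P gb f k y) * al P gb h k y := by sorry

theorem al_linear (P : Par) (gb : ℂ) (x x' : ℂ) (f h : L2) :
    ∀ᵐ y : ℝ, ∀ k : ℤ, al P gb (x • f + x' • h) k y = x * al P gb f k y + x' * al P gb h k y := by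
  sorry

/-- (B8) abstract: no two-dimensional space of nearly optimal families -/
theorem E3abs (c0 h : ℝ) (hc : 0 < c0) (hh : 0 < h) (hh' : h ≤ 1 / 2) : ∃ ε0 : ℝ, 0 < ε0 ∧
    ∀ (e : ℝ → ℝ) (g Λ : ℝ), Continuous e → 0 < g → 0 < Λ → (∀ y, g ≤ e y) →
    ∫⁻ y in Iy, ENNReal.ofReal (e y)⁻¹ = ENNReal.ofReal Λ →
    ENNReal.ofReal (c0 * Λ / g) ≤ ∫⁻ y in Iy, ENNReal.ofReal ((e y ^ 2)⁻¹) →
    ∀ α β : ℤ → ℝ → ℂ, (∀ k, AEMeasurable (α k)) → (∀ k, AEMeasurable (β k)) →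
    ∫⁻ y in Iy, Nf α y ^ 2 = 1 → ∫⁻ y in Iy, Nf β y ^ 2 = 1 →
    Ef e α < ⊤ → Ef e β < ⊤ →
    ∑' k : ℤ, ∫ y in Iy, conj (α k y) * β k y = 0 →
    (∀ x x' : ℂ, ‖x‖ ^ 2 + ‖x'‖ ^ 2 = 1 →
      ENNReal.ofReal (1 - ε0) * Ef e (fun k y => x * α k y + x' * β k y) ≤
        ENNReal.ofReal Λ⁻¹ * ∫⁻ y in Iy, ∫⁻ y' in Iy,
          Fac h (fun k y => x * α k y + x' * β k y) y y') → False := by sorry

/-- (E3), normalised -/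
theorem E30 : ∃ τ L0 : ℝ, 0 < τ ∧ τ ≤ 1 ∧ ∀ (P : Par) (gb : ℂ) (r : ℝ) (ξ : ℝ → ℂ), L0 ≤ P.L →
    ‖gb‖ = 1 → 0 ≤ r → r ^ 2 * Wc * Lam P ≤ (1 + 2 * τ) ^ 2 → AdmX P r ξ → ∀ f h : L2, f ≠ 0 →
    AA P gb ξ f = 0 → AA P gb ξ h = 0 → ∃ a : ℂ, h = a • f := by sorry

/-- B9 (3): `T` on the trial function for `ξ = r κ` -/
theorem trial_T (K : ℝ) (hK : 0 < K) : ∃ C : ℝ, 0 < C ∧ ∀ (P : Par) (r : ℝ) (f : L2), 0 ≤ r →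
    r ≤ 1 → r ≤ K / P.L → IsTrial P f →
    r ^ 2 * Wc * Lam P ^ 2 * (1 - C * (√P.L)⁻¹)
      ≤ (TT P (fun t => ((r * kap P t : ℝ) : ℂ)) f f).re := by sorry

end Pool.Agent.Helper92.HRU
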