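import Pool.Agent.Helper92.HRU.BDefs
import Pool.Agent.Helper34.HRV.Defs

/-! Piece PG2: the bridge `T(f,f) = Σ_n sg_n T_n(f_n)` (helper34). -/

set_option autoImplicit false

namespace Pool.Agent.Helper92.HRU

open Complex Set MeasureTheory Filter Topology
open scoped ComplexConjugate Real ENNReal
open Pool.Agent.Helper84.HRT (Weyl node chi mu8 XL Data Aop Bop Good)
open Pool.Agent.Helper34

theorem TT_bridge (P : Par) (r : ℝ) (hr : 0 ≤ r) (ξ : ℝ → ℂ) (h : AdmX P r ξ) (k : ℝ → ℂ)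
    (hk : HRV.Ker (r / (4 * π)) k) (hX : ∀ f : L2, (X0 ξ f : ℝ → ℂ) =ᵐ[volume] kerf k f)
    (f : L2) (hf : Q P f = f) :
    HasSum (fun n : ℤ => HRV.sg n * HRV.Tl k (HRV.Pt P.del n) (HRV.dl P.del n) (ln P f n))
      (TT P ξ f f).re := by sorry

end Pool.Agent.Helper92.HRU
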