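import Pool.Agent.Helper92.HRU.BDefs

/-! Piece PH1: abstract (E1). -/

set_option autoImplicit false

namespace Pool.Agent.Helper92.HRU

open Complex Set MeasureTheory Filter Topology
open scoped ComplexConjugate Real ENNReal
open Pool.Agent.Helper84.HRT (Weyl node chi mu8 XL Data Aop Bop Good)

/-- a bounded self-adjoint operator that is bounded below is surjective -/
theorem surj_of_bddBelow {H : Type} [NormedAddCommGroup H] [InnerProductSpace ℂ H] [CompleteSpace H]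
    (T : H →L[ℂ] H) (hs : ∀ f h, inner ℂ (T f) h = inner ℂ f (T h)) (m : ℝ) (hm : 0 < m)
    (hb : ∀ f, m * ‖f‖ ≤ ‖T f‖) : ∀ h, ∃ f, T f = h := by sorry

/-- generalised Cauchy-Schwarz: a non-negative form -/
theorem sq_le_of_nonneg {H : Type} [NormedAddCommGroup H] [InnerProductSpace ℂ H] [CompleteSpace H]
    (T : H →L[ℂ] H) (hs : ∀ f h, inner ℂ (T f) h = inner ℂ f (T h))
    (hp : ∀ f, 0 ≤ (inner ℂ f (T f) : ℂ).re) (f : H) :
    ‖T f‖ ^ 2 ≤ ‖T‖ * (inner ℂ f (T f) : ℂ).re := by sorry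

/-- (E1) abstract: `A(t) = A₀ + t X₁`, the projection `p` on the positive band, `q = 1 - p`;
if the compressions to `Ran q` are invertible, the Schur complement is positive at `t = 0` and
negative somewhere at `t = 1`, then some `A(t)` is not bounded below -/
theorem E1abs {H : Type} [NormedAddCommGroup H] [InnerProductSpace ℂ H] [CompleteSpace H]
    (A0 X1 p q : H →L[ℂ] H) (hA : ∀ f h, inner ℂ (A0 f) h = inner ℂ f (A0 h))
    (hX : ∀ f h, inner ℂ (X1 f) h = inner ℂ f (X1 h))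
    (hp : ∀ f h, inner ℂ (p f) h = inner ℂ f (p h)) (hpp : ∀ f, p (p f) = p f)
    (hq : ∀ f, p f + q f = f) (m K : ℝ) (hm : 0 < m) (hK : 0 < K)
    (h1 : ∀ t : ℝ, 0 ≤ t → t ≤ 1 → ∀ z : H, q z = z →
      ‖z‖ ≤ K * ‖q ((A0 + (t : ℂ) • X1) z)‖)
    (h2 : ∀ y z : H, p y = y → q z = z → q (A0 (y + z)) = 0 →
      m * ‖y‖ ^ 2 ≤ (inner ℂ y (A0 (y + z)) : ℂ).re)
    (y0 : H) (hy0 : p y0 = y0)
    (h3 : ∀ z : H, q z = z → q ((A0 + X1) (y0 + z)) = 0 →
      (inner ℂ y0 ((A0 + X1) (y0 + z)) : ℂ).re < 0) :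
    ∃ t : ℝ, 0 ≤ t ∧ t ≤ 1 ∧ ∀ ε : ℝ, 0 < ε → ∃ f : H, ‖f‖ = 1 ∧
      ‖(A0 + (t : ℂ) • X1) f‖ < ε := by sorry

end Pool.Agent.Helper92.HRU
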