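import Pool.Agent.Helper92.HRU.BDefs

/-! Piece PH2: compression and Schur complement. -/

set_option autoImplicit false

namespace Pool.Agent.Helper92.HRU

open Complex Set MeasureTheory Filter Topology
open scoped ComplexConjugate Real ENNReal
open Pool.Agent.Helper84.HRT (Weyl node chi mu8 XL Data Aop Bop Good)

/-- B9 (1): the compression of `A` to `Ran (1 - Q₊)` is bounded below -/
theorem comp_below (K : ℝ) (hK : 0 < K) : ∃ C L0 : ℝ, 0 < C ∧ ∀ (P : Par) (gb : ℂ) (r : ℝ)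
    (ξ : ℝ → ℂ), L0 ≤ P.L → ‖gb‖ = 1 → 0 ≤ r → r ≤ 1 → r ≤ K / P.L → AdmX P r ξ → ∀ z : L2,
    Qp P gb z = 0 →
    ‖z‖ ≤ C / P.g * ‖AA P gb ξ z - Qp P gb (AA P gb ξ z)‖ := by sorry

/-- B9 (2): the Schur complement -/
theorem schur_est (K : ℝ) (hK : 0 < K) : ∃ C L0 : ℝ, 0 < C ∧ ∀ (P : Par) (gb : ℂ) (r : ℝ)
    (ξ : ℝ → ℂ), L0 ≤ P.L → ‖gb‖ = 1 → 0 ≤ r → r ≤ 1 → r ≤ K / P.L → AdmX P r ξ → ∀ y z : L2,
    Qp P gb y = y → Qp P gb z = 0 → AA P gb ξ (y + z) - Qp P gb (AA P gb ξ (y + z)) = 0 →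
    |(inner ℂ y (AA P gb ξ (y + z)) : ℂ).re - (En P gb y - (TT P ξ y y).re)|
      ≤ C * (√P.L)⁻¹ * En P gb y := by sorry

end Pool.Agent.Helper92.HRU
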