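import Pool.Agent.Helper92.HRU.BDefs

/-! Piece PH3: the trial function. -/

set_option autoImplicit false

namespace Pool.Agent.Helper92.HRU

open Complex Set MeasureTheory Filter Topology
open scoped ComplexConjugate Real ENNReal
open Pool.Agent.Helper84.HRT (Weyl node chi mu8 XL Data Aop Bop Good)

/-- B9 (3): the trial function -/
theorem exists_trial (P : Par) : ∃ f : L2, Qp P 1 f = f ∧ En P 1 f = Lam P ∧ f ≠ 0 ∧ IsTrial P f := by
  sorry

end Pool.Agent.Helper92.HRU
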