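import Pool.Agent.Helper92.HRU.BDefs

/-! Piece PH4: (E1), normalised. -/

set_option autoImplicit false

namespace Pool.Agent.Helper92.HRU

open Complex Set MeasureTheory Filter Topology
open scoped ComplexConjugate Real ENNReal
open Pool.Agent.Helper84.HRT (Weyl node chi mu8 XL Data Aop Bop Good)

/-- (E1), normalised: for every `τ > 0` and large `L`, with `r² W Λ = (1+τ)²` -/
theorem E10 (τ : ℝ) (hτ : 0 < τ) (hτ1 : τ ≤ 1) : ∃ L0 : ℝ, ∀ (P : Par) (r : ℝ), L0 ≤ P.L → 0 ≤ r →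
    r ^ 2 * Wc * Lam P = (1 + τ) ^ 2 →
    ∃ ξ, AdmX P r ξ ∧ ∀ ε : ℝ, 0 < ε → ∃ f : L2, ‖f‖ = 1 ∧ ‖AA P 1 ξ f‖ < ε := by sorry

end Pool.Agent.Helper92.HRU
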