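import Pool.Agent.Helper92.HRU.BDefs

/-! Piece PJ1: the swap. -/

set_option autoImplicit false

namespace Pool.Agent.Helper92.HRU

open Complex Set MeasureTheory Filter Topology
open scoped ComplexConjugate Real ENNReal
open Pool.Agent.Helper84.HRT (Weyl node chi mu8 XL Data Aop Bop Good)

theorem rho_pos (P : Par) (y : ℝ) : 0 < rho P y := by sorry

theorem cf_sq_add_sf_sq (P : Par) (y : ℝ) : cf P y ^ 2 + sf P y ^ 2 = 1 := by sorry

theorem norm_ze (P : Par) (gb : ℂ) (hg : ‖gb‖ = 1) (k : ℤ) : ‖ze P gb k‖ = 1 := by sorry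

/-- pointwise formula for the swap -/
theorem Sw_coe (P : Par) (gb : ℂ) (hg : ‖gb‖ = 1) (f : L2) : (Sw P gb f : ℝ → ℂ) =ᵐ[volume]
    fun x => s1 P gb x * f (x - P.sh) + s2 P gb x * f (x + P.sh) := by sorry

theorem Sw_Sw (P : Par) (gb : ℂ) (hg : ‖gb‖ = 1) (f : L2) : Sw P gb (Sw P gb f) = Q P f := by sorry

theorem Sw_symm (P : Par) (gb : ℂ) (hg : ‖gb‖ = 1) (f h : L2) :
    inner ℂ (Sw P gb f) h = inner ℂ f (Sw P gb h) := by sorry

theorem Q_Sw (P : Par) (gb : ℂ) (hg : ‖gb‖ = 1) (f : L2) : Q P (Sw P gb f) = Sw P gb f := by sorry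

theorem Sw_Q (P : Par) (gb : ℂ) (hg : ‖gb‖ = 1) (f : L2) : Sw P gb (Q P f) = Sw P gb f := by sorry

theorem norm_Sw_le (P : Par) (gb : ℂ) (hg : ‖gb‖ = 1) (f : L2) : ‖Sw P gb f‖ ≤ ‖f‖ := by sorry

theorem aN_Sw_le (P : Par) (gb : ℂ) (hg : ‖gb‖ = 1) (f : L2) : aN (Sw P gb f) ≤ 4 * aN f := by sorry

end Pool.Agent.Helper92.HRU
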