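import Pool.Agent.Helper92.HRU.BDefs

/-! Piece PJ2: y-multipliers. -/

set_option autoImplicit false

namespace Pool.Agent.Helper92.HRU

open Complex Set MeasureTheory Filter Topology
open scoped ComplexConjugate Real ENNReal
open Pool.Agent.Helper84.HRT (Weyl node chi mu8 XL Data Aop Bop Good)

theorem yMul_coe (P : Par) {φ : ℝ → ℝ} (h : BddY φ) (f : L2) : (yMul P φ f : ℝ → ℂ) =ᵐ[volume]
    fun x => (Qs P).indicator (fun x => ((φ (yo P x) : ℝ) : ℂ)) x * f x := by sorry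

theorem yMul_mul (P : Par) {φ ψ : ℝ → ℝ} (h : BddY φ) (h' : BddY ψ) (f : L2) :
    yMul P φ (yMul P ψ f) = yMul P (fun y => φ y * ψ y) f := by sorry

theorem yMul_symm (P : Par) {φ : ℝ → ℝ} (h : BddY φ) (f g : L2) :
    inner ℂ (yMul P φ f) g = inner ℂ f (yMul P φ g) := by sorry

theorem yMul_Q (P : Par) {φ : ℝ → ℝ} (h : BddY φ) (f : L2) :
    yMul P φ (Q P f) = yMul P φ f ∧ Q P (yMul P φ f) = yMul P φ f := by sorry

theorem yMul_Sw (P : Par) (gb : ℂ) (hg : ‖gb‖ = 1) {φ : ℝ → ℝ} (h : BddY φ) (f : L2) :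
    yMul P φ (Sw P gb f) = Sw P gb (yMul P φ f) := by sorry

theorem yMul_one (P : Par) (f : L2) : yMul P (fun _ => 1) f = Q P f := by sorry

theorem norm_yMul_le (P : Par) {φ : ℝ → ℝ} (h : BddY φ) {C : ℝ} (hC : ∀ y, |y| < 1 / 20 → |φ y| ≤ C)
    (h0 : 0 ≤ C) (f : L2) : ‖yMul P φ f‖ ≤ C * ‖f‖ := by sorry

theorem yMul_mono (P : Par) {φ ψ : ℝ → ℝ} (h : BddY φ) (h' : BddY ψ)
    (hle : ∀ y, |y| < 1 / 20 → |φ y| ≤ |ψ y|) (f : L2) : ‖yMul P φ f‖ ≤ ‖yMul P ψ f‖ := by sorry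

end Pool.Agent.Helper92.HRU
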