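import Pool.Agent.Helper92.HRU.BDefs

/-! Piece PJ3: the involution J and the projections on the bands. -/

set_option autoImplicit false

namespace Pool.Agent.Helper92.HRU

open Complex Set MeasureTheory Filter Topology
open scoped ComplexConjugate Real ENNReal
open Pool.Agent.Helper84.HRT (Weyl node chi mu8 XL Data Aop Bop Good)

theorem yMul_Jo (P : Par) (gb : ℂ) (hg : ‖gb‖ = 1) {φ : ℝ → ℝ} (h : BddY φ) (f : L2) :
    yMul P φ (Jo P gb f) = Jo P gb (yMul P φ f) := by sorry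

theorem Jo_Jo (P : Par) (gb : ℂ) (hg : ‖gb‖ = 1) (f : L2) : Jo P gb (Jo P gb f) = Q P f := by sorry

theorem Jo_symm (P : Par) (gb : ℂ) (hg : ‖gb‖ = 1) (f h : L2) :
    inner ℂ (Jo P gb f) h = inner ℂ f (Jo P gb h) := by sorry

theorem Q_Jo (P : Par) (gb : ℂ) (hg : ‖gb‖ = 1) (f : L2) : Q P (Jo P gb f) = Jo P gb f := by sorry

theorem Jo_Q (P : Par) (gb : ℂ) (hg : ‖gb‖ = 1) (f : L2) : Jo P gb (Q P f) = Jo P gb f := by sorry

theorem aN_Jo_le (P : Par) (gb : ℂ) (hg : ‖gb‖ = 1) (f : L2) : aN (Jo P gb f) ≤ 5 * aN f := by sorry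

theorem Qp_Qp (P : Par) (gb : ℂ) (hg : ‖gb‖ = 1) (f : L2) : Qp P gb (Qp P gb f) = Qp P gb f := by
  sorry

theorem Qm_Qm (P : Par) (gb : ℂ) (hg : ‖gb‖ = 1) (f : L2) : Qm P gb (Qm P gb f) = Qm P gb f := by
  sorry

theorem Qp_Qm (P : Par) (gb : ℂ) (hg : ‖gb‖ = 1) (f : L2) : Qp P gb (Qm P gb f) = 0 := by sorry

theorem Qm_Qp (P : Par) (gb : ℂ) (hg : ‖gb‖ = 1) (f : L2) : Qm P gb (Qp P gb f) = 0 := by sorry

theorem Qp_add_Qm (P : Par) (gb : ℂ) (f : L2) : Qp P gb f + Qm P gb f = Q P f := by sorry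

theorem Qp_symm (P : Par) (gb : ℂ) (hg : ‖gb‖ = 1) (f h : L2) :
    inner ℂ (Qp P gb f) h = inner ℂ f (Qp P gb h) := by sorry

theorem Qm_symm (P : Par) (gb : ℂ) (hg : ‖gb‖ = 1) (f h : L2) :
    inner ℂ (Qm P gb f) h = inner ℂ f (Qm P gb h) := by sorry

theorem Q_Qp (P : Par) (gb : ℂ) (hg : ‖gb‖ = 1) (f : L2) : Q P (Qp P gb f) = Qp P gb f := by sorry

theorem Q_Qm (P : Par) (gb : ℂ) (hg : ‖gb‖ = 1) (f : L2) : Q P (Qm P gb f) = Qm P gb f := by sorry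

theorem Qp_Q (P : Par) (gb : ℂ) (hg : ‖gb‖ = 1) (f : L2) : Qp P gb (Q P f) = Qp P gb f := by sorry

theorem Qm_Q (P : Par) (gb : ℂ) (hg : ‖gb‖ = 1) (f : L2) : Qm P gb (Q P f) = Qm P gb f := by sorry

theorem norm_sq_pm (P : Par) (gb : ℂ) (hg : ‖gb‖ = 1) (f : L2) :
    ‖Q P f‖ ^ 2 = ‖Qp P gb f‖ ^ 2 + ‖Qm P gb f‖ ^ 2 := by sorry

end Pool.Agent.Helper92.HRU
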