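import Pool.Agent.Helper92.HRU.BDefs

/-! Piece PJ4: the dimer operator and 2 cos x. -/

set_option autoImplicit false

namespace Pool.Agent.Helper92.HRU

open Complex Set MeasureTheory Filter Topology
open scoped ComplexConjugate Real ENNReal
open Pool.Agent.Helper84.HRT (Weyl node chi mu8 XL Data Aop Bop Good)

/-- `2 cos x` on the lines: `H_D = 2cos x - s² wh + s² Th Sw` up to `O(δ)` -/
theorem HD_eq (P : Par) (gb : ℂ) (hg : ‖gb‖ = 1) (f f' : L2) (hf : Q P f = f) (hf' : Q P f' = f') :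
    ‖(inner ℂ f' (HD P gb f) : ℂ) - (inner ℂ f' (Cos2 f) - ((P.s ^ 2 * P.wh : ℝ) : ℂ) * inner ℂ f' f
      + ((P.s ^ 2 * P.Th : ℝ) : ℂ) * inner ℂ f' (Sw P gb f))‖ ≤ 2 * |P.del| * (‖f'‖ * ‖f‖) := by
  sorry

end Pool.Agent.Helper92.HRU
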