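import Pool.Agent.Helper92.HRU.BDefs

/-! Piece PK1: basics of the perturbation X. -/

set_option autoImplicit false

namespace Pool.Agent.Helper92.HRU

open Complex Set MeasureTheory Filter Topology
open scoped ComplexConjugate Real ENNReal
open Pool.Agent.Helper84.HRT (Weyl node chi mu8 XL Data Aop Bop Good)

/-- (general kernel formula) -/
theorem XL_kernel (M : ℝ) (ξ : ℝ → ℂ) (hm : Measurable ξ)
    (hs : ∀ᵐ t : ℝ, ξ (t + 1 / 2) = conj (ξ t))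
    (hb : ∀ᵐ t : ℝ, ‖ξ t‖ ≤ M * |Real.cos (2 * π * t)|) (f : L2) :
    (XL LW mu8 ξ f : ℝ → ℂ) =ᵐ[volume]
      kerf (fun u => ξ (Real.arcsin (u / 2) / (2 * π)) / ((4 * π * cc u : ℝ) : ℂ)) f := by sorry

theorem AdmX.win {P : Par} {r : ℝ} {ξ : ℝ → ℂ} (h : AdmX P r ξ) : AdmX P r (Win.indicator ξ) := by
  sorry

theorem AdmX.compl {P : Par} {r : ℝ} {ξ : ℝ → ℂ} (h : AdmX P r ξ) :
    AdmX P r (Winᶜ.indicator ξ) := by sorry

theorem AdmX.smul {P : Par} {r : ℝ} {ξ : ℝ → ℂ} (h : AdmX P r ξ) {t : ℝ} (h0 : 0 ≤ t)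
    (h1 : t ≤ 1) : AdmX P r (fun x => (t : ℂ) * ξ x) := by sorry

theorem AdmX.zero (P : Par) {r : ℝ} (hr : 0 ≤ r) : AdmX P r (fun _ => 0) := by sorry

theorem kap_le (P : Par) (t : ℝ) : kap P t ≤ 1 := by sorry

theorem kap_nonneg (P : Par) (t : ℝ) : 0 ≤ kap P t := by sorry

theorem kap_meas (P : Par) : Measurable (kap P) := by sorry

theorem X_apply {P : Par} {r : ℝ} {ξ : ℝ → ℂ} (h : AdmX P r ξ) (f : L2) :
    X ξ f = ∫ t, ξ t • W (node t) f ∂mu8 := by sorry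

theorem X_symm {P : Par} {r : ℝ} {ξ : ℝ → ℂ} (h : AdmX P r ξ) (f g : L2) :
    inner ℂ (X ξ f) g = inner ℂ f (X ξ g) := by sorry

theorem X_split {P : Par} {r : ℝ} {ξ : ℝ → ℂ} (h : AdmX P r ξ) (f : L2) :
    X ξ f = X0 ξ f + X1 ξ f := by sorry

theorem X_smul {P : Par} {r : ℝ} {ξ : ℝ → ℂ} (h : AdmX P r ξ) (t : ℝ) :
    X (fun x => (t : ℂ) * ξ x) = (t : ℂ) • X ξ := by sorry

theorem X0_smul {P : Par} {r : ℝ} {ξ : ℝ → ℂ} (h : AdmX P r ξ) (t : ℝ) :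
    X0 (fun x => (t : ℂ) * ξ x) = (t : ℂ) • X0 ξ := by sorry

theorem X_zero : X (fun _ => 0) = 0 := by sorry

theorem norm_X_le {P : Par} {r : ℝ} (hr : 0 ≤ r) {ξ : ℝ → ℂ} (h : AdmX P r ξ) (f : L2) :
    ‖X ξ f‖ ≤ r * ‖f‖ := by sorry

end Pool.Agent.Helper92.HRU
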