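import Pool.Agent.Helper92.HRU.BDefs

/-! Piece PK2: kernels of X, X0, X1. -/

set_option autoImplicit false

namespace Pool.Agent.Helper92.HRU

open Complex Set MeasureTheory Filter Topology
open scoped ComplexConjugate Real ENNReal
open Pool.Agent.Helper84.HRT (Weyl node chi mu8 XL Data Aop Bop Good)

/-- (B0.1) the kernel of `X`, `X₀`, `X₁` -/
theorem exists_kernel (P : Par) (r : ℝ) (hr : 0 ≤ r) (ξ : ℝ → ℂ) (h : AdmX P r ξ) :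
    ∃ k : ℝ → ℂ, Measurable k ∧ (∀ u, ‖k u‖ ≤ r / (4 * π) * kaph P u) ∧
      (∀ u, 2 ≤ |u| → k u = 0) ∧
      (∀ f : L2, (X ξ f : ℝ → ℂ) =ᵐ[volume] kerf k f) ∧
      (∀ f : L2, (X0 ξ f : ℝ → ℂ) =ᵐ[volume]
        kerf ({u : ℝ | 1 / 2 < |u| ∧ |u| < 3 / 2}.indicator k) f) ∧
      (∀ f : L2, (X1 ξ f : ℝ → ℂ) =ᵐ[volume]
        kerf ({u : ℝ | 1 / 2 < |u| ∧ |u| < 3 / 2}ᶜ.indicator k) f) := by sorry

/-- the kernel of the trial perturbation `ξ = r κ` -/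
theorem trial_kernel (P : Par) (r : ℝ) (hr : 0 ≤ r) (f : L2) :
    (X0 (fun t => ((r * kap P t : ℝ) : ℂ)) f : ℝ → ℂ) =ᵐ[volume]
      kerf ({u : ℝ | 1 / 2 < |u| ∧ |u| < 3 / 2}.indicator fun _ => ((r / (4 * π) : ℝ) : ℂ)) f := by
  sorry

theorem trial_adm (P : Par) (r : ℝ) (hr : 0 ≤ r) : AdmX P r (fun t => ((r * kap P t : ℝ) : ℂ)) := by sorry

end Pool.Agent.Helper92.HRU
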