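import Pool.Agent.Helper92.HRU.BDefs

/-! Piece PN1: simple facts on the parameters and nodes. -/

set_option autoImplicit false

namespace Pool.Agent.Helper92.HRU

open Complex Set MeasureTheory Filter Topology
open scoped ComplexConjugate Real ENNReal
open Pool.Agent.Helper84.HRT (Weyl node chi mu8 XL Data Aop Bop Good)

theorem Par.s_pos (P : Par) : 0 < P.s := by sorry

theorem Par.s_le (P : Par) : P.s ≤ 1 / 10 ^ 20 := by sorry

theorem Par.gh_pos (P : Par) : 0 < P.gh := by sorry

theorem Par.gh_le (P : Par) : P.gh ≤ 1 / 10 ^ 8 := by sorry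

theorem Par.e2_pos (P : Par) : 0 < P.e2 := by sorry

theorem Par.e2_le (P : Par) : P.e2 ≤ 1 / 10 ^ 6 := by sorry

theorem Par.g_pos (P : Par) : 0 < P.g := by sorry

theorem Par.g_eq (P : Par) : P.g = (P.L ^ 24)⁻¹ := by sorry

theorem Par.del_le (P : Par) : |P.del| ≤ (P.L ^ 40)⁻¹ := by sorry

theorem Par.del_le' (P : Par) : |P.del| ≤ 1 / 10 ^ 80 := by sorry

theorem Par.sh_eq (P : Par) : P.sh = √3 + 2 * P.b.im := by sorry

theorem Par.norm_b (P : Par) : ‖P.b‖ = 1 := by sorry

theorem norm_o1 : ‖o1‖ = 1 := by sorry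

theorem norm_o2 : ‖o2‖ = 1 := by sorry

theorem node_sixth : node (1 / 6) = o1 := by sorry

theorem node_third : node (1 / 3) = o2 := by sorry

end Pool.Agent.Helper92.HRU
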