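import Pool.Agent.Helper92.HRU.BDefs

/-! Piece PN2: numerical bounds on the constants. -/

set_option autoImplicit false

namespace Pool.Agent.Helper92.HRU

open Complex Set MeasureTheory Filter Topology
open scoped ComplexConjugate Real ENNReal
open Pool.Agent.Helper84.HRT (Weyl node chi mu8 XL Data Aop Bop Good)

theorem Par.im_b (P : Par) : 0.7047 ≤ P.b.im ∧ P.b.im ≤ 0.7048 := by sorry

theorem Par.re_b (P : Par) : 0.7093 ≤ P.b.re ∧ P.b.re ≤ 0.7096 := by sorry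

theorem Par.C1_bd (P : Par) : 0.96 ≤ P.C1 ∧ P.C1 ≤ 0.97 := by sorry

theorem Par.C2_bd (P : Par) : 0.55 ≤ P.C2 ∧ P.C2 ≤ 0.58 := by sorry

theorem Par.v2_bd (P : Par) : 1.6 ≤ P.v2 ∧ P.v2 ≤ 1.8 := by sorry

theorem Par.wh_bd (P : Par) : 2.4 ≤ P.wh ∧ P.wh ≤ 2.9 := by sorry

theorem Par.Th_bd (P : Par) : 2.4 ≤ P.Th ∧ P.Th ≤ 3 := by sorry

theorem Par.ep_bd (P : Par) : 1 ≤ P.ep ∧ P.ep ≤ 1.6 := by sorry

end Pool.Agent.Helper92.HRU
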