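import Pool.Agent.Helper92.HRU.BDefs

/-! Piece PN3: roots of unity are dense. -/

set_option autoImplicit false

namespace Pool.Agent.Helper92.HRU

open Complex Set MeasureTheory Filter Topology
open scoped ComplexConjugate Real ENNReal
open Pool.Agent.Helper84.HRT (Weyl node chi mu8 XL Data Aop Bop Good)

/-- roots of unity are dense: there are parameters for every `L ≥ 100` -/
theorem exists_par (L : ℝ) (hL : 100 ≤ L) : ∃ P : Par, P.L = L := by sorry

end Pool.Agent.Helper92.HRU
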