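import Pool.Agent.Helper92.HRU.BDefs

/-! Piece PN4: positivity of Wc. -/

set_option autoImplicit false

namespace Pool.Agent.Helper92.HRU

open Complex Set MeasureTheory Filter Topology
open scoped ComplexConjugate Real ENNReal
open Pool.Agent.Helper84.HRT (Weyl node chi mu8 XL Data Aop Bop Good)

/-- the constant `W` is positive -/
theorem Wc_pos : 0 < Wc := by sorry

end Pool.Agent.Helper92.HRU
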