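import Pool.Agent.Helper92.HRU.BDefs

/-! Piece PQ1: the lines. -/

set_option autoImplicit false

namespace Pool.Agent.Helper92.HRU

open Complex Set MeasureTheory Filter Topology
open scoped ComplexConjugate Real ENNReal
open Pool.Agent.Helper84.HRT (Weyl node chi mu8 XL Data Aop Bop Good)

theorem bddM_ind {S : Set ℝ} (hS : MeasurableSet S) : BddM (S.indicator fun _ => (1 : ℂ)) := by sorry

theorem meas_Qs (P : Par) : MeasurableSet (Qs P) := by sorry

theorem mem_Qs (P : Par) (x : ℝ) : x ∈ Qs P ↔ |yo P x| < 1 / 20 := by sorry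

theorem idx_of_near (P : Par) (n : ℤ) (y : ℝ) (hy : |y| ≤ 1) : idx (Pt P n + y) = n := by sorry

theorem yo_of_near (P : Par) (n : ℤ) (y : ℝ) (hy : |y| ≤ 1) : yo P (Pt P n + y) = y := by sorry

theorem cos_Pt (P : Par) (n : ℤ) (y : ℝ) :
    |Real.cos (Pt P n + y) - (-(if Even n then 1 else -1) * Real.sin y)| ≤ |P.del| := by sorry

theorem cos_ge (P : Par) (x : ℝ) (hx : x ∉ Qs P) : 1 / 22 ≤ |Real.cos x| := by sorry

theorem bddM_gf (P : Par) : BddM (gf P) := by sorry

theorem gf_le (P : Par) (x : ℝ) : ‖gf P x‖ ≤ 11 := by sorry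

theorem idx_meas : Measurable idx := by sorry

theorem yo_meas (P : Par) : Measurable (yo P) := by sorry

/-- a translation by `c` with `dist(c, π ℤ) > 1/10 + 2|δ|` leaves the lines -/
theorem shift_off (P : Par) (c : ℝ) (hc : ∀ n : ℤ, 3 / 20 ≤ |c - π * n|) (x : ℝ)
    (hx : x ∈ Qs P) : x - c ∉ Qs P := by sorry

end Pool.Agent.Helper92.HRU
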