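import Pool.Agent.Helper92.HRU.BDefs

/-! Piece PQ2: algebra of Q, Qc, Cos2, G, Wb. -/

set_option autoImplicit false

namespace Pool.Agent.Helper92.HRU

open Complex Set MeasureTheory Filter Topology
open scoped ComplexConjugate Real ENNReal
open Pool.Agent.Helper84.HRT (Weyl node chi mu8 XL Data Aop Bop Good)

theorem Q_Q (P : Par) (f : L2) : Q P (Q P f) = Q P f := by sorry

theorem Qc_Qc (P : Par) (f : L2) : Qc P (Qc P f) = Qc P f := by sorry

theorem Q_Qc (P : Par) (f : L2) : Q P (Qc P f) = 0 := by sorry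

theorem Qc_Q (P : Par) (f : L2) : Qc P (Q P f) = 0 := by sorry

theorem Q_add_Qc (P : Par) (f : L2) : Q P f + Qc P f = f := by sorry

theorem Q_symm (P : Par) (f g : L2) : inner ℂ (Q P f) g = inner ℂ f (Q P g) := by sorry

theorem Qc_symm (P : Par) (f g : L2) : inner ℂ (Qc P f) g = inner ℂ f (Qc P g) := by sorry

theorem norm_Q_le (P : Par) (f : L2) : ‖Q P f‖ ≤ ‖f‖ := by sorry

theorem norm_Qc_le (P : Par) (f : L2) : ‖Qc P f‖ ≤ ‖f‖ := by sorry

theorem norm_sq_Q (P : Par) (f : L2) : ‖f‖ ^ 2 = ‖Q P f‖ ^ 2 + ‖Qc P f‖ ^ 2 := by sorry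

theorem Cos2_Q (P : Par) (f : L2) : Cos2 (Q P f) = Q P (Cos2 f) := by sorry

theorem Cos2_Qc (P : Par) (f : L2) : Cos2 (Qc P f) = Qc P (Cos2 f) := by sorry

theorem Cos2_symm (f g : L2) : inner ℂ (Cos2 f) g = inner ℂ f (Cos2 g) := by sorry

theorem norm_Cos2_le (f : L2) : ‖Cos2 f‖ ≤ 2 * ‖f‖ := by sorry

theorem Cos2_eq (f : L2) : Cos2 f = W 1 f + W (-1) f := by sorry

theorem G_symm (P : Par) (f g : L2) : inner ℂ (G P f) g = inner ℂ f (G P g) := by sorry

theorem norm_G_le (P : Par) (f : L2) : ‖G P f‖ ≤ 11 * ‖f‖ := by sorry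

theorem G_Q (P : Par) (f : L2) : G P (Q P f) = 0 := by sorry

theorem Q_G (P : Par) (f : L2) : Q P (G P f) = 0 := by sorry

theorem Cos2_G (P : Par) (f : L2) : Cos2 (G P f) = Qc P f := by sorry

theorem G_Cos2 (P : Par) (f : L2) : G P (Cos2 f) = Qc P f := by sorry

theorem Wb_symm (P : Par) (gb : ℂ) (f g : L2) :
    inner ℂ (Wb P gb f) g = inner ℂ f (Wb P gb g) := by sorry

theorem B0_symm (P : Par) (gb : ℂ) (f g : L2) :
    inner ℂ (B0 P gb f) g = inner ℂ f (B0 P gb g) := by sorry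

theorem aN_Q_le (P : Par) (f : L2) : aN (Q P f) ≤ aN f := by sorry

theorem aN_G_le (P : Par) (f : L2) : aN (G P f) ≤ 11 * aN f := by sorry

end Pool.Agent.Helper92.HRU
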