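import Pool.Agent.Helper92.HRU.BDefs

/-! Piece PQ3: non-resonance. -/

set_option autoImplicit false

namespace Pool.Agent.Helper92.HRU

open Complex Set MeasureTheory Filter Topology
open scoped ComplexConjugate Real ENNReal
open Pool.Agent.Helper84.HRT (Weyl node chi mu8 XL Data Aop Bop Good)

/-- (B1.6) -/
theorem Q_Wb_Q (P : Par) (gb : ℂ) (f : L2) : Q P (Wb P gb (Q P f)) = 0 := by sorry

theorem Q_X0_Q (P : Par) (r : ℝ) (ξ : ℝ → ℂ) (h : AdmX P r ξ) (f : L2) :
    Q P (X0 ξ (Q P f)) = 0 := by sorry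

end Pool.Agent.Helper92.HRU
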