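import Pool.Agent.Helper92.HRU.BDefs

/-! Piece PW1: WGW on the lines: pointwise formula. -/

set_option autoImplicit false

namespace Pool.Agent.Helper92.HRU

open Complex Set MeasureTheory Filter Topology
open scoped ComplexConjugate Real ENNReal
open Pool.Agent.Helper84.HRT (Weyl node chi mu8 XL Data Aop Bop Good)

/-- (B2a) the only surviving terms: shifts `0`, `±sh` -/
theorem WGW_eq (P : Par) (gb : ℂ) (hg : ‖gb‖ = 1) (f : L2) (hf : Q P f = f) :
    ∀ᵐ x : ℝ, x ∈ Qs P → (Wb P gb (G P (Wb P gb f)) : ℝ → ℂ) x =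
      (ph0 P x : ℂ) * f x + php P gb x * f (x - P.sh) + conj (php P gb (x + P.sh)) * f (x + P.sh) := by
  sorry

end Pool.Agent.Helper92.HRU
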