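import Pool.Agent.Helper92.HRU.BDefs

/-! Piece PW2: WGW on the lines: values of the multipliers. -/

set_option autoImplicit false

namespace Pool.Agent.Helper92.HRU

open Complex Set MeasureTheory Filter Topology
open scoped ComplexConjugate Real ENNReal
open Pool.Agent.Helper84.HRT (Weyl node chi mu8 XL Data Aop Bop Good)

/-- (B2b) pointwise value of the multiplier of shift `0` on the lines -/
theorem ph0_est : ∃ C : ℝ, 0 < C ∧ ∀ (P : Par) (n : ℤ) (y : ℝ), |y| ≤ 1 / 10 →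
    |ph0 P (Pt P n + y) - P.wh| ≤ C * (|y| + |P.del|) := by sorry

/-- (B2c) pointwise value of the multiplier of shift `sh` on the lines -/
theorem php_est : ∃ C : ℝ, 0 < C ∧ ∀ (P : Par) (gb : ℂ) (k : ℤ) (y : ℝ), ‖gb‖ = 1 → |y| ≤ 1 / 10 →
    ‖php P gb (Pt P (2 * k) + y) - (-(P.Th : ℂ) * ze P gb k)‖ ≤ C * (|y| + |P.del|) ∧
    ‖php P gb (Pt P (2 * k + 1) + y)‖ ≤ C * (|y| + |P.del|) := by sorry

end Pool.Agent.Helper92.HRU
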