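import Pool.Agent.Helper92.HRU.BDefs

/-! Piece PW3: second order of W on the lines. -/

set_option autoImplicit false

namespace Pool.Agent.Helper92.HRU

open Complex Set MeasureTheory Filter Topology
open scoped ComplexConjugate Real ENNReal
open Pool.Agent.Helper84.HRT (Weyl node chi mu8 XL Data Aop Bop Good)

/-- (B2) -/
theorem second_order : ∃ C : ℝ, 0 < C ∧ ∀ (P : Par) (gb : ℂ), ‖gb‖ = 1 → ∀ f f' : L2,
    Q P f = f → Q P f' = f' →
    ‖(inner ℂ f' (Wb P gb (G P (Wb P gb f))) : ℂ) - ((P.wh : ℂ) * inner ℂ f' f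
      - (P.Th : ℂ) * inner ℂ f' (Sw P gb f))‖ ≤ C * (‖wY P f'‖ * ‖wY P f‖) := by sorry

end Pool.Agent.Helper92.HRU
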