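import Pool.Agent.Helper92.HRU.BDefs

/-! Piece PZ1: fields of the data. -/

set_option autoImplicit false

namespace Pool.Agent.Helper92.HRU

open Complex Set MeasureTheory Filter Topology
open scoped ComplexConjugate Real ENNReal
open Pool.Agent.Helper84.HRT (Weyl node chi mu8 XL Data Aop Bop Good)

/-! fields of the data (`m = 8`, `τ = tauP P`, `β = betP P`, `Γ = GamP`, `κ = kap P`) -/
theorem tau_rat (P : Par) : ∃ d0 : ℕ, 0 < d0 ∧ Even d0 ∧ ∀ i, ∃ k : ℕ, tauP P i = k / d0 := by sorry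

theorem GamP_compact : IsCompact GamP := by sorry

theorem GamP_chi (P : Par) : ∀ γ ∈ GamP, ∀ w, (fun i => γ i * chi w (node (tauP P i))) ∈ GamP := by
  sorry

theorem kap_per (P : Par) (t : ℝ) : kap P (t + 1 / 2) = kap P t := by sorry

theorem bad_fin : (badP ∩ Set.Icc 0 1).Finite := by sorry

theorem bad_per (t : ℝ) : t + 1 / 2 ∈ badP ↔ t ∈ badP := by sorry

theorem kap_cont (P : Par) (t : ℝ) (ht : t ∉ badP) : ContinuousAt (kap P) t := by sorry

theorem kap_pos (P : Par) (t : ℝ) (ht : t ∉ badP) : 0 < kap P t := by sorry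

end Pool.Agent.Helper92.HRU
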