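import Pool.Agent.Helper92.HRU.BDefs

/-! Piece PZ2: normalisation by a plane translation. -/

set_option autoImplicit false

namespace Pool.Agent.Helper92.HRU

open Complex Set MeasureTheory Filter Topology
open scoped ComplexConjugate Real ENNReal
open Pool.Agent.Helper84.HRT (Weyl node chi mu8 XL Data Aop Bop Good)

/-- normalisation by a plane translation -/
theorem normalise (P : Par) (γ : Fin 8 → ℂ) (hγ : γ ∈ GamP) : ∃ (w gb : ℂ), ‖gb‖ = 1 ∧
    (∀ f : L2, (∑ i, (betP P i * γ i) • W (node (tauP P i)) (W (-w) f))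
      = W (-w) (B0 P gb f)) ∧
    (∀ (r : ℝ) (ξ : ℝ → ℂ), AdmX P r ξ → ∃ ξ' : ℝ → ℂ, AdmX P r ξ' ∧
      ∀ f : L2, X ξ (W (-w) f) = W (-w) (X ξ' f)) := by sorry

end Pool.Agent.Helper92.HRU
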