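import Pool.Agent.Helper92.HRU.BDefs

/-! Piece PZ3: THEOREM B. -/

set_option autoImplicit false

namespace Pool.Agent.Helper92.HRU

open Complex Set MeasureTheory Filter Topology
open scoped ComplexConjugate Real ENNReal
open Pool.Agent.Helper84.HRT (Weyl node chi mu8 XL Data Aop Bop Good)

/-- THEOREM B -/
theorem theoremB : ∃ (D : Data) (rb r1 g c C : ℝ), Good LW D rb r1 g c C := by sorry

end Pool.Agent.Helper92.HRU
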